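import Mathlib
import Pool.Agent.Run7.h697.TW.PCx

set_option autoImplicit false

/-! # Poles of Igusa's Poincaré series for forms over products of ideals of maximal minors along the
# branches of a forest

Let `V` be the set of nodes of a finite rooted forest, `dep v` the depth of the node `v` (the number
of its proper ancestors), and let a vector `x_v` of `n v` variables be attached to each node `v`,
where `n` is constant on the trees and `dep v < n v` (`Forest`). For a node `v` let `I_v` be the
ideal of the maximal minors of the `(dep v + 1) × n v` matrix whose rows are the vectors of the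
nodes of the branch from the root to `v` (`Forest.minorZ`). So `I_v` is the ideal of the coordinates
of `x_v`, if `v` is a root, and in general the matrices of two nodes have the rows of their common
ancestors in common. In the case of a forest without branching, the minors of a tree with `m` nodes
are the Plücker coordinates on the flags of subspaces of the dimensions `1, …, m` of the affine
space of dimension `n`, and their products, with the exponents `e v`, are the generating sections of
the line bundle `𝒪(e)` on the flag variety.

For `t ∈ T` let `e t v`, `v ∈ V`, be exponents, and let the `M_{t,J}` be the products of these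
minors, `e t v` of them from the matrix of `v`, for each `v`. They generate the ideal `∏ v, I_v ^ e
t v`. Let

  `F_t = ∑_J y_{t,J} M_{t,J}(x)`,

where the `y_{t,J}` are further variables, separate for each `t`, so `F_t` is the general form over
this product, for a forest without branching the universal section of the line bundle `𝒪(e t)` on a
product of flag varieties. Let `f = ∏ t, F_t ^ a t ∈ ℤ[x, y]` (`Forest.formZ`).

Everything is proved here, for EVERY prime `q`: nothing is taken from a resolution of singularities.
The components of the divisor of `f` are indexed by the nodes `v`, with `ν = n v - dep v`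
(`Forest.codim`) and `N = ∑ t, a t ∑ e t w`, the second sum over the nodes `w` whose branch contains
`v` (`Forest.ord`), and by the `t`, with `ν = 1` and `N = a t` (`Forest.nu`, `Forest.mul`).

Zeta function. For fixed `x` the integral over the `y` is `∏ v, ‖I_v(x)‖ ^ (E_v s) ∏ t, (q - 1) / (q
- q ^ (-a t s))`, where `‖I_v(x)‖` (`nb`) is the maximal norm of the maximal minors of the matrix of
the branch of `v`, and `E_v = ∑ t, a t * e t v` (`igusa_eqF`). Let `δ_v(x)` be the quotient of
`‖I_v(x)‖` and of the same number for the parent of `v` (`dl`). If the vectors of the proper
ancestors of `v` are linearly independent then `δ_v` is the distance of `x_v` from their span over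
`ℚ_q`, and this is the maximal norm of the coordinates of the image of `x_v` under a surjective
linear map from `ℤ_q ^ n` to `ℤ_q ^ ν`, `n = n v`, `ν = n - dep v` (`step`: some maximal minor has
the largest norm, and the other columns have integral coefficients with respect to it). So, by the
uniqueness of the Haar measure, the integral of `δ_v ^ σ` over the vector `x_v` is `(q ^ ν - 1) / (q
^ ν - q ^ (-σ))`, whatever the other vectors are (`psi_int`, `dl_avg`). Integration over the vectors
of the nodes in the order of decreasing depths gives the product formula (`norms_int`): the zeta
function is the product of the `(q ^ ν - 1) / (q ^ ν - q ^ (-N s))` over the components. A real `s >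
0` is replaced by a complex one by means of the Poincaré series (`igusa_complex`). The Poincaré
series `P(T)` and the zeta function are related by `P(T) (1 - T) = 1 - T Z(T)`.

Roots. A functional equation of `f` gives a functional equation, with a factor `b'` of `b`, of the
product of powers of the ideals `∏ v, I_v ^ e t v` (`locEq_of_powProd`, `functionalEq_strong`). A
residue computation at a point of a divisor `E_v` over the set where `x_v` lies in the span of the
vectors of its proper ancestors, at which this divisor is a Rees divisor, gives the root `-ν_v /
N_v` of `b'` (`rees_prod`); this is the case if the node `v` is used itself, that is, if `a t > 0`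
and `e t v > 0` for some `t`. The chart (`xi`): let `c = dep v`. The vectors of the nodes `u ≠ v`
are free, at the base point `x_u = lam` times the unit vector of index `dep u`; the vector of `v` is
the combination of the vectors of its `c` proper ancestors with the coefficients `x_{v,0}, …, x_{v,c
- 1}`, plus `z` times the vector `(0, …, 0, 1, x_{v,c + 1}, …, x_{v,n - 1})`, `z = x_{v,c}`. A minor
of a branch which contains `v` is `z` times the minor in which the row of `v` is replaced by this
vector, which does not vanish at the base point for the first columns (`minor_eq`, `cc_det_ne`), and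
the quotients of the minors of the branch of `v` with the columns `0, …, c - 1, j` and `0, …, c - 1,
c` are the coordinates `x_{v,j}` (`quot_det`). The roots `-1 / a t` come from the strict transforms:
the other factor of `b` is `∏ t, ∏_{i ≤ a t} (a t s + i)`. -/

namespace Pool.Agent.Results.MP_5d9b3c_ag.BranchMinors

open Polynomial Pool.Agent.W427.SMC Pool.Agent.H628R4.TP Pool.Agent.Run7.h697.TW
open Pool.Agent.W206.CU (IsPoleOfOrder)

/-- **Denef's question for `f`, every prime.** Let `f = ∏ t, F_t ^ a t`, `F_t` the general form over
the product `∏ v, I_v ^ e t v` of powers of the ideals of maximal minors along the branches of a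
forest, and let `q` be any prime. Let the index `i` run over the nodes `v`, with `ν_v = n v - dep
v` and `N_v = ∑ t, a t ∑ e t w`, the sum over the nodes `w` whose branch contains `v`, and over
the `t`, with `ν = 1` and `N = a t`. Let `P(T)` be the Poincaré series of `f`, `D(T) = ∏ i, (q ^
ν_i - T ^ N_i)`. (1) `D(T) (1 - T) P(T) = D(T) - D(1) T`. (2) For `r > 0`, `T₀` is a pole of
order `r` of `P(T)` if and only if `r` is the number of the `i` with `N_i > 0` and `T₀ ^ N_i = q
^ ν_i`; so the `t₀ = -log |T₀| / log q` are the numbers `-ν_i / N_i`, `N_i > 0`. (3) Suppose that
all the nodes with `N_v > 0` are used themselves: `a t > 0` and `e t v > 0` for some `t` (so the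
nodes which are used are closed under passing to ancestors). Then for every pole `T₀` the number
`t₀` is a root of every `b` with `b(s) f ^ s = P(s) f ^ (s + 1)`, `P(s)` a differential operator
in the Weyl algebra, polynomial in `s`; the Bernstein-Sato polynomial `b_f` is one of these `b`. -/
theorem result {V T : Type} [Fintype V] [DecidableEq V] [Fintype T] [DecidableEq T]
    (F : Forest V) (e : T → V → ℕ) (a : T → ℕ) (q : ℕ) [Fact q.Prime] :
    ((((∏ i : V ⊕ T, (C ((q : ℂ) ^ F.nu T i) - X ^ F.mul e a i)) * (1 - X) : ℂ[X])) :
      PowerSeries ℂ) * poincare q (F.formZ e a) =
        ((((∏ i : V ⊕ T, (C ((q : ℂ) ^ F.nu T i) - X ^ F.mul e a i)) -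
          C (∏ i : V ⊕ T, ((q : ℂ) ^ F.nu T i - 1)) * X : ℂ[X])) : PowerSeries ℂ) ∧
    (∀ (T₀ : ℂ) (r : ℕ), 0 < r → (IsPoleOfOrder (poincare q (F.formZ e a)) T₀ r ↔
      Nat.card {i : V ⊕ T // 0 < F.mul e a i ∧ T₀ ^ F.mul e a i = (q : ℂ) ^ F.nu T i} = r)) ∧
    ((∀ v, 0 < F.mul e a (Sum.inl v) → ∃ t, a t ≠ 0 ∧ e t v ≠ 0) →
      ∀ (T₀ : ℂ) (r : ℕ), 0 < r → IsPoleOfOrder (poincare q (F.formZ e a)) T₀ r →
      ∀ b : Polynomial ℂ,
        IsBFunction (MvPolynomial.map (Int.castRingHom ℂ) (F.formZ e a)) b →
          b.eval ((-Real.log ‖T₀‖ / Real.log q : ℝ) : ℂ) = 0) :=
  ⟨poincare_main F e a, fun T₀ r hr => poincare_cnt F e a T₀ r hr,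
    fun he T₀ r hr h b hb => poincare_rootF F e a he T₀ r hr h b hb⟩

end Pool.Agent.Results.MP_5d9b3c_ag.BranchMinors
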