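import Pool.Agent.Run7.h827.MP.Mult

set_option autoImplicit false

/-! # Poles of Poincaré series for forms over products of ideals of minors of products of matrices

Let a rooted forest be given, with the vertices `v < K`, and let `m ≤ n_v` be numbers (`MTree`). For
each vertex `v` let `X_v` be a matrix of independent variables, with `n_v` columns, and with `m`
rows if `v` is a root and `n_u` rows if `u` is the parent of `v`. Let `P_v` be the product of the
matrices along the path from the root to `v`, an `m × n_v` matrix: `P_v = X_v` for the roots, and
`P_v = P_u X_v` if `u` is the parent of `v` (`MTree.pm`). For `c = (v, i)`, `i < m` (`MTree.Cell`),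
let `I_c` be the ideal of the maximal minors of the matrix of the first `i + 1` rows of `P_v`
(`genZ`). It vanishes where the rank of this matrix is at most `i`. Let `c ≤ d`, `c = (v, i)`, `d =
(w, j)`, if `v` is `w` or an ancestor of `w`, and `i ≤ j` (`MTree.Le`).

For `t ∈ T` let `e t c` be exponents, and let the `M_{t,J}` be the products of such minors, `e t c`
of them of the first `i + 1` rows of `P_v`, for each `c = (v, i)`. They generate the product `∏ c,
I_c ^ e t c`. Let

  `F_t = ∑_J y_{t,J} M_{t,J}(x)`,

where the `y_{t,J}` are further variables, separate for each `t`, so `F_t` is the general form over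
this product. Let `f = ∏ t, F_t ^ a t ∈ ℤ[x, y]` (`formZ (genZ G) e a`). For instance, if `m = 1`,
the ideals of the entries of all the products `X_{v_1} ⋯ X_{v_k}` of a row vector and of matrices,
along the paths which begin in a root, may occur; or, if the forest is a path, the ideals of the
maximal minors of the first rows of `X_1`, of `X_1 X_2`, of `X_1 X_2 X_3`, and so on.

Everything is proved here, for EVERY prime `q`: nothing is taken from a resolution of singularities.
The components of the divisor of `f` are indexed by the pairs `c = (v, i)`, with `ν_c = n_v - i` and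
`N_c = ∑ t, a t ∑_{d ≥ c} e t d`, and by the `t`, with `ν = 1` and `N = a t` (`MTree.nu`,
`MTree.mul`).

Zeta function. For fixed `x` the integral over the `y` is `∏ c, ‖I_c(x)‖ ^ (E_c s) ∏ t, (q - 1) / (q
- q ^ (-a t s))`, where `‖I_c(x)‖` is the maximal norm of the minors of the first `i + 1` rows of
`P_v`, and `E_c = ∑ t, a t * e t c` (`igusa_form`). One integrates over the matrices `X_v` in the
order of decreasing `v` (`int_vertex`). By operations on the columns over `ℤ_q` the first `m` rows
of `P_u`, `u` the parent of `v`, become a lower triangular matrix `L` (`exists_tri`); these operations are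
compensated by an automorphism of the space of the matrices `X_v`, which preserves the Haar measure. So,
by the formula of Cauchy and Binet, the norm of the maximal minors of the first `k` rows of `P_v` is
the product of the same number for `P_u` and of the number for `X_v` (`DD_tri`). The rows of `X_v`
are integrated in the opposite order: if the first `k` rows have been made lower triangular by
operations on the columns then the norm for `k + 1` rows is the norm for `k` rows times the maximal
norm of the last `n_v - k` entries of the row `k` (`DD_succ`), and the integral of the power `σ` of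
the latter is `(q ^ ν - 1) / (q ^ ν - q ^ (-σ))`, `ν = n_v - k` (`int_row`, `phN_eq`). Altogether
the zeta function is the product of the `(q ^ ν - 1) / (q ^ ν - q ^ (-N s))` over the components
(`int_tree`, `igusa_tree`). A real `s > 0` is replaced by a complex one by means of the Poincaré
series (`abs_complex`).

Roots. Suppose that the set of the `c` whose ideals occur in `f` is closed downwards
(`MTree.Down`): if `I_d` occurs and `c ≤ d` then `I_c` occurs. A functional equation of `f` gives a
functional equation, with a factor `b'` of `b`, of the product of powers of the ideals `∏ c, I_c ^ e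
t c` (`locEq_of_powProd`, `functionalEq_strong`). A residue computation at a general point of a
divisor `E_c`, over the set where the row `i` of `P_v` is in the span of the rows before, gives the
root `-ν_c / N_c` of `b'`, since `E_c` is a Rees divisor of the product of powers of the ideals of
the `F_t` (`rees_prod`). The chart (`xi`), for `c = (v, s)`: the entries `(s, k)`, `k ≥ s`, of `X_v`
are such that the row `s` of `P_v` is `∑_k q_k (row k of P_v) + z w` (`row_v`), the sum over the `k
< s`, where the `q_k` are determined by the first `s` columns, and `w = (0, …, 0, 1, w_{s + 1}, …)`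
with coordinates `w_k` (`wS`); all the other entries are coordinates plus constants (`bs`). The
quotients of the minors of the first `s + 1` rows of `P_v` by one of them are these coordinates
(`MM_Jc`). The roots `-1 / a t` come from the strict transforms: the other factor of `b` is `∏ t,
∏_{i ≤ a t} (a t s + i)`. -/

namespace Pool.Agent.Results.MP_5d9b3c_ag.MatrixProducts

open Polynomial Pool.Agent.W427.SMC Pool.Agent.H628R4.TP Pool.Agent.Run7.h827.MT
  Pool.Agent.Run7.h827.MP
open Pool.Agent.W206.CU (IsPoleOfOrder)

/-- **Denef's question for `f = ∏ t, F_t ^ a t`, every prime.** `F_t` is the general form over the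
product `∏ c, I_c ^ e t c` of powers of the ideals of the maximal minors of the first rows of the
products `P_v` of generic matrices along the paths of a rooted forest, and `q` any prime. Let the
index `x` run over the pairs `c = (v, i)`, with `ν_c = n_v - i`, `N_c = ∑ t, a t ∑_{d ≥ c} e t d`,
and over the `t`, with `ν = 1`, `N = a t`. Let `P(T)` be the Poincaré series of `f`, and `D(T) = ∏
x, (q ^ ν_x - T ^ N_x)`. (1) `D(T) (1 - T) P(T) = D(T) - D(1) T`. (2) For `r > 0`, `T₀` is a pole of
order `r` of `P(T)` if and only if `r` is the number of the `x` with `N_x > 0` and `T₀ ^ N_x = q ^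
ν_x`; so the `t₀ = -log |T₀| / log q` are the numbers `-ν_x / N_x`, `N_x > 0`. (3) If the set of the
`c` whose ideals occur is closed downwards, then for every pole `T₀` the number `t₀` is a root of
every `b` with `b(s) f ^ s = P(s) f ^ (s + 1)`, `P(s)` a differential operator in the Weyl algebra,
polynomial in `s`; the Bernstein-Sato polynomial `b_f` is one of these `b`. -/
theorem result {T : Type} [Fintype T] [DecidableEq T] (G : MTree) (e : T → G.Cell → ℕ)
    (a : T → ℕ) (q : ℕ) [Fact q.Prime] :
    ((((∏ x : G.Cell ⊕ T, (C ((q : ℂ) ^ G.nu T x) - X ^ G.mul e a x)) * (1 - X) : ℂ[X])) :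
      PowerSeries ℂ) * poincare q (formZ (genZ G) e a) =
        ((((∏ x : G.Cell ⊕ T, (C ((q : ℂ) ^ G.nu T x) - X ^ G.mul e a x)) -
          C (∏ x : G.Cell ⊕ T, ((q : ℂ) ^ G.nu T x - 1)) * X : ℂ[X])) : PowerSeries ℂ) ∧
    (∀ (T₀ : ℂ) (r : ℕ), 0 < r → (IsPoleOfOrder (poincare q (formZ (genZ G) e a)) T₀ r ↔
      Nat.card {x : G.Cell ⊕ T // 0 < G.mul e a x ∧ T₀ ^ G.mul e a x = (q : ℂ) ^ G.nu T x}
        = r)) ∧
    (G.Down e a → ∀ (T₀ : ℂ) (r : ℕ), 0 < r →
      IsPoleOfOrder (poincare q (formZ (genZ G) e a)) T₀ r → ∀ b : Polynomial ℂ,
        IsBFunction (MvPolynomial.map (Int.castRingHom ℂ) (formZ (genZ G) e a)) b →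
          b.eval ((-Real.log ‖T₀‖ / Real.log q : ℝ) : ℂ) = 0) :=
  ⟨tree_psum G q e a, fun T₀ r hr => tree_poles G q e a T₀ r hr,
    fun hd T₀ r hr h b hb => tree_proot G q e a hd T₀ r hr h b hb⟩

end Pool.Agent.Results.MP_5d9b3c_ag.MatrixProducts
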