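import Pool.Agent.Run7.h827.NP.Mult

set_option autoImplicit false

/-! # Poles of Poincaré series for forms over products of northeast ideals of maximal minors

Let `x = (x_{i,j})`, `0 ≤ i < m`, `0 ≤ j < n`, be the generic `m × n` matrix. For `c = (i, j)` with
`i + j < n` (`Cell m n`) let `I_c` be the ideal of the maximal minors of the northeast matrix which
consists of the first `i + 1` rows and of the last `n - j` columns of `x`: the northeast ideals of maximal
minors of Bruns and Conca, which are the Borel fixed ideals of maximal minors (`neZ m n c`). It vanishes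
where the rank of this matrix is at most `i`, a subset of codimension `n - i - j`. Let `c ≤ d`, `c =
(i, j)`, `d = (i', j')`, if `i ≤ i'` and `j ≤ j'` (`le`).

For `t ∈ T` let `e t c` be exponents, and let the `M_{t,J}` be the products of such minors, `e t c`
of them of the matrix of `c`, for each `c`. They generate the product `∏ c, I_c ^ e t c`. Let

  `F_t = ∑_J y_{t,J} M_{t,J}(x)`,

where the `y_{t,J}` are further variables, separate for each `t`, so `F_t` is the general form over
this product. Let `f = ∏ t, F_t ^ a t ∈ ℤ[x, y]` (`formZ (neZ m n) e a`).

Everything is proved here, for EVERY prime `q`: nothing is taken from a resolution of singularities.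
The components of the divisor of `f` are indexed by the cells `c = (i, j)`, with `ν_c = n - i - j` and
`N_c = ∑ t, a t ∑_{d ≥ c} e t d`, and by the `t`, with `ν = 1` and `N = a t` (`nuN`, `mulN`). The
numerator of the zeta function is given by the numbers `M_c = ∑ t, a t ∑ e t (i', j')`, the last sum
over the `i' ≥ i`, `j' > j`, for `c = (i, j)`, and `M = 0` for the `t` (`lowN`). The reason is that for
one row `i` the conditions of the cells `(i, 0), (i, 1), …` are given by a flag of linear subspaces.

Zeta function. For fixed `x` the integral over the `y` is `∏ c, ‖I_c(x)‖ ^ (A_c s) ∏ t, (q - 1) / (q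
- q ^ (-a t s))`, where `‖I_c(x)‖` is the maximal norm of the minors, and `A_c = ∑ t, a t * e t c`
(`igusa_form`). One integrates over the rows of `x` in the order of decreasing `i` (`int_NE`). Suppose
that the rows `0, …, i - 1` are given and that none of their minors vanishes (the other matrices are a
null set, `ae_ne`). By operations on the columns `≥ j` over `ℤ_q` the first `i` rows, restricted to
these columns, become lower triangular (`exists_tri`). So, as a function of the row `i`, the quotient of
the norm `‖I_{(i, j)}(x)‖` by the norm of the maximal minors of the first `i` rows and the columns `≥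
j` is the maximal norm `δ_j` of the coordinates of its image under a surjection of `ℤ_q ^ n` onto
`ℤ_q ^ (n - i - j)`. The kernels increase with `j`, so these quotients of `ℤ_q ^ n` form a flag
(`row_flag`, `IsFlag`). The integral of `∏_j δ_j ^ σ_j` over a flag is

  `∏_j (q ^ (d - j) - q ^ (-(σ_{j + 1} + … + σ_{d - 1}))) / (q ^ (d - j) - q ^ (-(σ_j + … + σ_{d - 1})))`,

`0 ≤ j < d = n - i`: one divides the vectors into classes modulo `q` (`flag_int`, `vR_prod`). Since the
norms of the minors of the first `i` rows remain as factors, with the exponents `σ_j`, the integral over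
the row `i - 1` is of the same kind, and the exponents add up to the `N_c s` and the `M_c s`
(`igusa_ne`). A real `s > 0` is replaced by a complex one by means of the Poincaré series
(`quot_complex`).

Roots. Suppose that the set of the cells whose ideals occur in `f` is closed downwards
(`Down`): if `I_d` occurs and `c ≤ d` then `I_c` occurs. A functional equation of `f` gives a
functional equation, with a factor `b'` of `b`, of the product of powers of the ideals `∏ c, I_c ^ e
t c` (`locEq_of_powProd`, `functionalEq_strong`). A residue computation at a general point of the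
divisor `E_c` gives the root `-ν_c / N_c` of `b'`, since `E_c` is a Rees divisor of the product of
powers of the ideals of the `F_t` (`rees_prod`). The chart (`xi`), for `c = (i, j)`: the entries of
the row `x_i` in the last `i` columns, in the columns `< j`, and the entries of all the other rows are
coordinates `X + κ` with constants `κ`, which are `λ` at the places of a partial permutation matrix and
`0` elsewhere; the other entries of the row `x_i` are `∑_k q_k x_k + z w`, where the `q_k` are
determined by the last `i` columns, and `w = 1` in one column and a coordinate in the other ones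
(`wS`). The quotients of the minors of the matrix of `c` by one of them are these coordinates
(`NM_Jc`), so `E_c` is a Rees divisor as soon as `I_c` occurs. The roots `-1 / a t` come from the
strict transforms: the other factor of `b` is `∏ t, ∏_{i ≤ a t} (a t s + i)`. -/

namespace Pool.Agent.Results.MP_5d9b3c_ag.NortheastMinors

open Polynomial Pool.Agent.W427.SMC Pool.Agent.H628R4.TP Pool.Agent.Run7.h827.MP
  Pool.Agent.Run7.h827.NE Pool.Agent.Run7.h827.NP
open Pool.Agent.W206.CU (IsPoleOfOrder)

/-- **Denef's question for `f = ∏ t, F_t ^ a t`, every prime.** `F_t` is the general form over the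
product `∏ c, I_c ^ e t c` of powers of the northeast ideals `I_c`, `c = (i, j)`, of the maximal
minors of the first `i + 1` rows and of the last `n - j` columns of the generic `m × n` matrix, and
`q` any prime. Let the index `x` run over the cells `c = (i, j)`, with `ν_c = n - i - j`, `N_c = ∑
t, a t ∑ e t (i', j')`, the last sum over the `i' ≥ i`, `j' ≥ j`, and `M_c` the same sum over the
`i' ≥ i`, `j' > j`, and over the `t`, with `ν = 1`, `N = a t`, `M = 0`. Let `P(T)` be the Poincaré
series of `f`, and `D(T) = ∏ x, (q ^ ν_x - T ^ N_x)`, `E(T) = ∏ x, (q ^ ν_x - T ^ M_x)`. (1) `D(T)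
(1 - T) P(T) = D(T) - E(T) T`. (2) For `r > 0`, `T₀` is a pole of order `r` of `P(T)` if and only if
`r` is the number of the `x` with `N_x > 0` and `T₀ ^ N_x = q ^ ν_x` minus the number of the `x`
with `M_x > 0` and `T₀ ^ M_x = q ^ ν_x`. (3) If the set of the cells `c` whose ideals occur is
closed downwards, then for every pole `T₀` the number `t₀ = -log |T₀| / log q` is a root of every
`b` with `b(s) f ^ s = P(s) f ^ (s + 1)`, `P(s)` a differential operator in the Weyl algebra,
polynomial in `s`; the Bernstein-Sato polynomial `b_f` is one of these `b`. -/
theorem result {T : Type} [Fintype T] [DecidableEq T] (m n : ℕ) (e : T → Cell m n → ℕ)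
    (a : T → ℕ) (q : ℕ) [Fact q.Prime] :
    ((((∏ x : Cell m n ⊕ T, (C ((q : ℂ) ^ nuN m n T x) - X ^ mulN m n e a x)) *
      (1 - X) : ℂ[X])) : PowerSeries ℂ) * poincare q (formZ (neZ m n) e a) =
        ((((∏ x : Cell m n ⊕ T, (C ((q : ℂ) ^ nuN m n T x) - X ^ mulN m n e a x)) -
          (∏ x : Cell m n ⊕ T, (C ((q : ℂ) ^ nuN m n T x) - X ^ lowN m n e a x)) * X :
            ℂ[X])) : PowerSeries ℂ) ∧
    (∀ (T₀ : ℂ) (r : ℕ), 0 < r → (IsPoleOfOrder (poincare q (formZ (neZ m n) e a)) T₀ r ↔
      Nat.card {x : Cell m n ⊕ T // 0 < mulN m n e a x ∧
        T₀ ^ mulN m n e a x = (q : ℂ) ^ nuN m n T x} =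
      Nat.card {x : Cell m n ⊕ T // 0 < lowN m n e a x ∧
        T₀ ^ lowN m n e a x = (q : ℂ) ^ nuN m n T x} + r)) ∧
    (Down e a → ∀ (T₀ : ℂ) (r : ℕ), 0 < r →
      IsPoleOfOrder (poincare q (formZ (neZ m n) e a)) T₀ r → ∀ b : Polynomial ℂ,
        IsBFunction (MvPolynomial.map (Int.castRingHom ℂ) (formZ (neZ m n) e a)) b →
          b.eval ((-Real.log ‖T₀‖ / Real.log q : ℝ) : ℂ) = 0) :=
  ⟨ne_psum m n q e a, fun T₀ r hr => ne_poles m n q e a T₀ r hr,
    fun hd T₀ r hr h b hb => ne_proot m n q e a hd T₀ r hr h b hb⟩

end Pool.Agent.Results.MP_5d9b3c_ag.NortheastMinors
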