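import Pool.Agent.Run7.h768.CS.PoinZ

set_option autoImplicit false

/-! # Poles of Igusa's Poincare series: quadratic polynomials plus products of three variables suffice

Every polynomial `f ∈ ℤ[x_1, ..., x_n]` is stably equivalent over `ℤ` to a polynomial `F` of the form
`q + ∑_k x_k y_k z_k`, where `q` is a polynomial of degree at most two with integral coefficients and the
variables `x_k, y_k, z_k` are all different: for some `κ` there is an automorphism of the ring
`ℤ[x, t, w]`, in `n + 2 κ` variables, which fixes the origin and maps `f(x) + t_1 w_1 + ... + t_κ w_κ` to `F`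
(`StabEq`, `QT`). For every prime number `p`, Denef's question (Q1) for `F` and `p` implies the one for `f` and
`p`. So Q1 holds for all polynomials and all primes if it holds for the polynomials `q + ∑_k x_k y_k z_k`,
`deg q ≤ 2`, and all primes. No prime number is excluded.
(For the Jacobian conjecture the reductions to cubic and to cubic linear maps are theorems of Bass, Connell and
Wright and of Druzkowski.)

Construction. The step is `f ↦ f + (t + v(x, w)) (w - u(x))`, `u(0) = v(0) = 0`, which is the image of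
`f + t w` under `w ↦ w - u(x)`, `t ↦ t + v(x, w)`. It replaces a term `u v` of `f` by `t w - t u + w v`, so that
a product of three polynomials `u v r` becomes in three steps a product of three new variables, up to
the products `t u`, `t v`, `t r`.

Poincare series. If `V_e(f)` is the number of solutions of `f = 0` modulo `p ^ e`, divided by `p ^ (n e)`, then
`p ^ (e + 1) (p V_{e+1}(f + t w) - V_e(f + t w)) = p V_{e+1}(f) - V_e(f)`, since the number of solutions of
`t w = c` modulo `p ^ e` is the sum of `p ^ e - p ^ (e - 1)` over the `j < e` with `p ^ j ∣ c`, plus `p ^ e` if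
`c = 0`. If `(s + 1) c(s)` satisfies a functional equation of `f`, then `(s + 1) c(s + κ)` satisfies one of
`F`. -/

namespace Pool.Agent.Results.MP_5d9b3c_ag.QuadraticPlusTriples

open MvPolynomial Pool.Agent.Run7.h768.CZ
open Pool.Agent.W427.SMC (poincare)
open Pool.Agent.H628R4.TP (IsBFunction)

/-- Denef's question for `f` and the prime number `p`: for every pole `T₀` of the Poincare series the number
`t₀ = -log |T₀| / log p` is a root of every polynomial `b` with a functional equation
`b(s) f ^ s = P(s) f ^ (s + 1)`, in particular of the Bernstein-Sato polynomial. -/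
def ConjAt (p : ℕ) [Fact p.Prime] {n : ℕ} (f : MvPolynomial (Fin n) ℤ) : Prop :=
  ∀ T₀ : ℂ, IsPoleAt (poincare p f) T₀ → ∀ b : Polynomial ℂ,
    IsBFunction (map (Int.castRingHom ℂ) f) b →
      b.eval ((-Real.log ‖T₀‖ / Real.log p : ℝ) : ℂ) = 0

/-- Denef's question for `f`: for all prime numbers. -/
def Conj {n : ℕ} (f : MvPolynomial (Fin n) ℤ) : Prop := ∀ (p : ℕ) [Fact p.Prime], ConjAt p f

/-- **Quadratic polynomials plus products of three different variables suffice.**

First part: for every non-constant `f ∈ ℤ[x_1, ..., x_n]` there are `κ` and a non-constant `F` with integral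
coefficients in `m = n + 2 κ` variables, `F = q + ∑_k x_k y_k z_k` with `deg q ≤ 2` and different variables
`x_k, y_k, z_k` (`QT F`), such that
(1) `F` is the image of `f(x) + t_1 w_1 + ... + t_κ w_κ` under an automorphism of the polynomial ring over
`ℤ` which fixes the origin (`StabEq f F κ`);
(2) for every prime number `p` the Poincare series satisfy
`(1 - T / p) P_{F,p}(T) = (1 - T / p ^ (κ + 1)) P_{f,p}(T / p ^ κ)`;
(3) if `T₀ ≠ p` is a pole of `P_{f,p}` then `p ^ κ T₀` is a pole of `P_{F,p}` (`t₀` becomes `t₀ - κ`);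
(4) a functional equation of `f` with `(s + 1) c(s)` gives one of `F` with `(s + 1) c(s + κ)`;
(5) for every prime number `p` the conjecture for `F` and `p` implies the conjecture for `f` and `p`.

Second part: the conjecture holds for all non-constant polynomials with integral coefficients, in any number of
variables, and all primes, if and only if it holds for those of the form `q + ∑_k x_k y_k z_k`, `deg q ≤ 2`,
with different variables `x_k, y_k, z_k`; and the same holds for every single prime number. -/
theorem result :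
    (∀ {n : ℕ} (f : MvPolynomial (Fin n) ℤ), f.totalDegree ≠ 0 →
      ∃ (κ m : ℕ) (F : MvPolynomial (Fin m) ℤ), m = n + 2 * κ ∧ QT F ∧ F.totalDegree ≠ 0 ∧
        StabEq f F κ ∧
        (∀ (p : ℕ) [Fact p.Prime],
          (1 - PowerSeries.C (p : ℂ)⁻¹ * PowerSeries.X) * poincare p F =
            PowerSeries.rescale (((p : ℂ) ^ κ)⁻¹)
              ((1 - PowerSeries.C (p : ℂ)⁻¹ * PowerSeries.X) * poincare p f)) ∧
        (∀ (p : ℕ) [Fact p.Prime] (T₀ : ℂ), T₀ ≠ p → IsPoleAt (poincare p f) T₀ →
          IsPoleAt (poincare p F) ((p : ℂ) ^ κ * T₀)) ∧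
        (∀ c : Polynomial ℂ,
          IsBFunction (map (Int.castRingHom ℂ) f) ((Polynomial.X + 1) * c) →
          IsBFunction (map (Int.castRingHom ℂ) F)
            ((Polynomial.X + 1) * c.comp (Polynomial.X + Polynomial.C (κ : ℂ)))) ∧
        ∀ (p : ℕ) [Fact p.Prime], ConjAt p F → ConjAt p f) ∧
    ((∀ (n : ℕ) (f : MvPolynomial (Fin n) ℤ), f.totalDegree ≠ 0 → Conj f) ↔
      ∀ (n : ℕ) (f : MvPolynomial (Fin n) ℤ), QT f → f.totalDegree ≠ 0 → Conj f) ∧
    ∀ (p : ℕ) [Fact p.Prime],
      ((∀ (n : ℕ) (f : MvPolynomial (Fin n) ℤ), f.totalDegree ≠ 0 → ConjAt p f) ↔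
        ∀ (n : ℕ) (f : MvPolynomial (Fin n) ℤ), QT f → f.totalDegree ≠ 0 → ConjAt p f) := by
  have e1 : ∀ p : ℕ, (((1 - Polynomial.C (p : ℂ)⁻¹ * Polynomial.X : Polynomial ℂ)) :
      PowerSeries ℂ) = 1 - PowerSeries.C (p : ℂ)⁻¹ * PowerSeries.X := by
    intro p
    rw [Polynomial.coe_sub, Polynomial.coe_one, Polynomial.coe_mul, Polynomial.coe_C,
      Polynomial.coe_X]
  refine ⟨fun {n} f hf => ?_, ⟨fun h n f _ => h n f, fun h n f hf => ?_⟩,
    fun p _ => ⟨fun h n f _ => h n f, fun h n f hf => ?_⟩⟩
  · obtain ⟨κ, m, F, hm, hκ, hF, hs, hr⟩ := exists_qt f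
    refine ⟨κ, m, F, hm, hF, hr.deg hf, hs, fun p _ => ?_, fun p _ T₀ hT h => ?_,
      fun c hc => (hr.b hf _ hc).2 c rfl, fun p _ => pconj_of p hf hκ hr⟩
    · rw [← e1]
      exact poin_rel p hr
    · have hp0 : (p : ℂ) ≠ 0 := by exact_mod_cast (Fact.out : p.Prime).ne_zero
      have h1 := pole_descend (a := ((p : ℂ) ^ κ)⁻¹) (q := (p : ℂ))
        (inv_ne_zero (pow_ne_zero _ hp0)) hp0 (poin_rel p hr) hT h
      rwa [inv_inv] at h1
  · obtain ⟨κ, m, F, -, hκ, hF, -, hr⟩ := exists_qt f
    exact fun p _ => pconj_of p hf hκ hr (h m F hF (hr.deg hf) p)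
  · obtain ⟨κ, m, F, -, hκ, hF, -, hr⟩ := exists_qt f
    exact pconj_of p hf hκ hr (h m F hF (hr.deg hf))

end Pool.Agent.Results.MP_5d9b3c_ag.QuadraticPlusTriples
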